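import Pool.Agent.H78R2.Crys.Main
import Pool.Agent.H78R2.Crys.Unfold

/-!
Demazure keys under the Henriques-Kamnitzer commutor: `κ(c) = κ(b)⁻¹`.
-/

set_option autoImplicit false

namespace Pool.Agent.Results.MP_ee0ae9_al.KeyInverse

open Pool.Agent.H78R2.Crys Pool.Agent.H78R2.Crys.Crystal

universe u

theorem result {I : Type} [Fintype I] [DecidableEq I] (C : CartanDatum I) :
    -- closed families exist
    Nonempty (Family.{0} C) ∧ ∀ F : Family.{u} C,
    -- the closed family is unique up to isomorphism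
    (∀ (F' : Family.{u} C) (la : I → ℕ), ∃ j : Emb (F.B la) (F'.B la),
      Function.Surjective j ∧ j (F.hw la) = F'.hw la) ∧
    -- Demazure crystals do not depend on the reduced word
    (∀ (la : I → ℕ) (L L' : List I), C.cs.IsReduced L → C.cs.IsReduced L' →
      C.cs.wordProd L = C.cs.wordProd L' →
      ∀ b, InD (F.B la) (F.hw la) L b ↔ InD (F.B la) (F.hw la) L' b) ∧
    -- every element has exactly one key
    (∀ (la : I → ℕ) (b : (F.B la).carrier), ∃! w : C.W, F.IsKey la b w) ∧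
    -- the highest weight elements of `B_λ ⊗ B_μ` have the form `b ⊗ b_μ`
    (∀ (la mu : I → ℕ) (z : (tensor (F.B la) (F.B mu)).carrier),
      (tensor (F.B la) (F.B mu)).IsHigh z → z.2 = F.hw mu) ∧
    -- the longest element and the involution `θ` exist
    (∃ (w0 : C.W) (th : I → I), IsLongest C w0 th) ∧
    ∀ (w0 : C.W) (th : I → I), IsLongest C w0 th →
      -- the Schützenberger involutions exist and are unique
      (∀ la : I → ℕ, ∃! ξ, IsSchutz th (F.B la) ξ) ∧
      (∀ mu la : I → ℕ, ∃! ξ, IsSchutz th (tensor (F.B mu) (F.B la)) ξ) ∧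
      -- the commutor maps `b ⊗ b_μ` to `ξ (ξ (b_μ) ⊗ ξ (b)) = c ⊗ b_λ` and `κ(c) = κ(b)⁻¹`
      ∀ (la mu : I → ℕ) (ξla : (F.B la).carrier → (F.B la).carrier)
        (ξmu : (F.B mu).carrier → (F.B mu).carrier)
        (ξ : (tensor (F.B mu) (F.B la)).carrier → (tensor (F.B mu) (F.B la)).carrier),
        IsSchutz th (F.B la) ξla → IsSchutz th (F.B mu) ξmu →
        IsSchutz th (tensor (F.B mu) (F.B la)) ξ →
        ∀ b : (F.B la).carrier, (tensor (F.B la) (F.B mu)).IsHigh (b, F.hw mu) →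
          ∃ c : (F.B mu).carrier, ξ (ξmu (F.hw mu), ξla b) = (c, F.hw la) ∧
            ∀ w : C.W, F.IsKey la b w ↔ F.IsKey mu c w⁻¹ := by
  refine ⟨exists_family C, fun F => ?_⟩
  refine ⟨fun F' la => Family.unique F F' la, fun la L L' h1 h2 h3 b => F.D_indep h1 h2 h3 b,
    F.existsUnique_key, fun la mu z hz => ?_, ?_, ?_⟩
  · exact WFam.eq_hw F.toWFam (tensor_high_right hz)
  · obtain ⟨T⟩ := exists_longData C
    exact ⟨T.w0, T.th, T.long, T.alpha_th⟩
  · rintro w0 th ⟨h1, h2⟩
    set T : LongData C := ⟨w0, th, h1, h2⟩ with hT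
    refine ⟨fun la => F.schutz_self T la, fun mu la => F.schutz_tensor T mu la, ?_⟩
    intro la mu ξla ξmu ξ g1 g2 g3 b hb
    exact F.main T g1 g2 g3 hb

end Pool.Agent.Results.MP_ee0ae9_al.KeyInverse
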